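import Mathlib.Algebra.Group.WithOne.Defs
import Mathlib.Tactic

set_option autoImplicit false

/-!
# Transitivity of p-conjugacy is not inherited from the variants

A semigroup `S` with eight elements and `x y z = 0` for all `x, y, z`. All its variants are null
semigroups, in which p-conjugacy is equality; in `S` itself p-conjugacy is not transitive.
-/

namespace Pool.Agent.Results.MP_9df05e_al.VariantsTransitive

/-- p-conjugacy in a semigroup `T`: `a = u v` and `b = v u` for some `u, v` in `T` with an
identity element adjoined. (If `T` already has an identity element, this is the same relation as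
the one with `u, v` in `T`.) -/
def PConj {T : Type*} [Semigroup T] (a b : T) : Prop :=
  ∃ u v : WithOne T, (a : WithOne T) = u * v ∧ (b : WithOne T) = v * u

/-- p-conjugacy is transitive in `T` -/
def PTrans (T : Type*) [Semigroup T] : Prop :=
  ∀ a b c : T, PConj a b → PConj b c → PConj a c

/-- the underlying set of the variant of `S` at `a` -/
def Variant (S : Type*) (_ : S) : Type _ := S

/-- the product `x * a * y` -/
def vmul {S : Type*} [Semigroup S] (a x y : S) : S := x * a * y

theorem vmul_assoc {S : Type*} [Semigroup S] (a x y z : S) :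
    vmul a (vmul a x y) z = vmul a x (vmul a y z) := by
  simp only [vmul, mul_assoc]

/-- the variant of the semigroup `S` at `a`: the product of `x` and `y` is `x * a * y` -/
instance (S : Type*) [Semigroup S] (a : S) : Semigroup (Variant S a) where
  mul x y := vmul (S := S) a x y
  mul_assoc x y z := vmul_assoc (S := S) a x y z

theorem wo_cases {T : Type*} (u : WithOne T) : u = 1 ∨ ∃ t : T, u = t := by
  induction u using WithOne.cases_on with
  | _ => simp

/-- if all products are equal, p-conjugacy is equality -/
theorem eq_of_null {T : Type*} [Semigroup T] (z : T) (h : ∀ x y : T, x * y = z) {a b : T}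
    (hab : PConj a b) : a = b := by
  obtain ⟨u, v, h1, h2⟩ := hab
  obtain rfl | ⟨u, rfl⟩ := wo_cases u
  · rw [one_mul] at h1
    rw [mul_one] at h2
    exact WithOne.coe_injective (h1.trans h2.symm)
  · obtain rfl | ⟨v, rfl⟩ := wo_cases v
    · rw [mul_one] at h1
      rw [one_mul] at h2
      exact WithOne.coe_injective (h1.trans h2.symm)
    · rw [← WithOne.coe_mul, h] at h1 h2
      exact WithOne.coe_injective (h1.trans h2.symm)

theorem ptrans_of_null {T : Type*} [Semigroup T] (z : T) (h : ∀ x y : T, x * y = z) :
    PTrans T := by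
  intro a b c hab hbc
  rw [eq_of_null z h hab]
  exact hbc

/-- the multiplication table: `1 2 = 5`, `2 1 = 3 4 = 6`, `4 3 = 7`, all other products are `0` -/
def tab (x y : Fin 8) : Fin 8 :=
  if x = 1 ∧ y = 2 then 5
  else if x = 2 ∧ y = 1 then 6
  else if x = 3 ∧ y = 4 then 6
  else if x = 4 ∧ y = 3 then 7
  else 0

/-- the eight element set -/
structure E where
  val : Fin 8
deriving DecidableEq

instance : Fintype E := Fintype.ofEquiv (Fin 8) ⟨E.mk, E.val, fun _ => rfl, fun _ => rfl⟩

theorem tab_assoc : ∀ x y z : Fin 8, tab (tab x y) z = tab x (tab y z) := by decide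

instance : Semigroup E where
  mul x y := ⟨tab x.val y.val⟩
  mul_assoc x y z := congrArg E.mk (tab_assoc x.val y.val z.val)

theorem mul_def (x y : E) : x * y = ⟨tab x.val y.val⟩ := rfl

theorem triple_zero : ∀ x y z : Fin 8, tab (tab x y) z = 0 := by decide

theorem vmul_zero (a x y : E) : vmul a x y = ⟨0⟩ := by
  simp only [vmul, mul_def, triple_zero]

theorem key : ∀ x y : Fin 8, ¬ (5 = tab x y ∧ 7 = tab y x) := by decide

/-- **p-conjugacy may be transitive in every variant of a semigroup without being transitive in the
semigroup itself.** The example is finite. -/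
theorem result : ∃ (S : Type) (_ : Semigroup S), Finite S ∧ (∀ a : S, PTrans (Variant S a)) ∧
    ¬ PTrans S := by
  refine ⟨E, inferInstance, inferInstance, fun a => ?_, fun h => ?_⟩
  · refine ptrans_of_null (T := Variant E a) (⟨0⟩ : E) fun x y => ?_
    exact vmul_zero a x y
  · have h1 : PConj (⟨5⟩ : E) ⟨6⟩ :=
      ⟨((⟨1⟩ : E) : WithOne E), ((⟨2⟩ : E) : WithOne E), rfl, rfl⟩
    have h2 : PConj (⟨6⟩ : E) ⟨7⟩ :=
      ⟨((⟨3⟩ : E) : WithOne E), ((⟨4⟩ : E) : WithOne E), rfl, rfl⟩
    obtain ⟨u, v, h3, h4⟩ := h _ _ _ h1 h2
    obtain rfl | ⟨u, rfl⟩ := wo_cases u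
    · rw [one_mul] at h3
      rw [mul_one] at h4
      have := WithOne.coe_injective (h3.trans h4.symm)
      exact absurd this (by decide)
    · obtain rfl | ⟨v, rfl⟩ := wo_cases v
      · rw [mul_one] at h3
        rw [one_mul] at h4
        have := WithOne.coe_injective (h3.trans h4.symm)
        exact absurd this (by decide)
      · rw [← WithOne.coe_mul] at h3 h4
        have h5 := congrArg E.val (WithOne.coe_injective h3)
        have h6 := congrArg E.val (WithOne.coe_injective h4)
        exact key u.val v.val ⟨h5, h6⟩

end Pool.Agent.Results.MP_9df05e_al.VariantsTransitive
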